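import Pool.Agent.U345.ZAM

/-!
# The increments of `log |ζ|` on the scale `1 / log T` in the moment measures

We use Gaussian windows: `1 ≤ U ≤ T / log T` and `moment k T U` is the integral of `|ζ(1/2 + iy)|^(2k)` with the weight
`exp (-((y - T) / U)^2)` (so `U` may be bounded, e.g. `U = 1`).

Theorem (unconditional, all integers `k ≥ 1`, in particular the eighth moment). For every `A ≥ 0` there is a constant `C` such that for all large `T`,
`1 ≤ U ≤ T / log T` and all complex `z_0, z_1, z_2` with `|z_i| ≤ A` the integral over `y` of

`|ζ(1/2 + iy + z_0 / log T)|^(2k) exp (1/2 |log |ζ(1/2 + iy + z_1 / log T)| - log |ζ(1/2 + iy + z_2 / log T)||^(1/2))`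

with the weight is at most `C moment k T U`. So with respect to the probability measure proportional to `|ζ(1/2 + iy)|^(2k)` times the weight (which lives on
extremely large values of `ζ`) the difference of the values of `log |ζ|` at two points at a distance `O(1 / log T)`, on the line or near the line,
is bounded in probability, all its absolute moments are bounded (the `p`-th moment by `C 4^p (2p)!`), and the probability that it exceeds `x` is at most
`C exp (-x^(1/2) / 2)`, uniformly in `T`, `U` and the points. Consequently every limit law for `log |ζ|` (with a norming which tends to infinity) in the moment measure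
is at the same time a limit law for all the values near the point. Neither bounds for the multiplicities of the zeros nor the size of the
moment are used. (Zeros of high multiplicity are not excluded; for this reason negative powers of `|ζ|` cannot be used instead.)

Proof. Divide the line into cells of length `1 / log T`. Let `S` be the maximum of `|ζ|` on the disc of radius `(A + 1) / log T` around the lower end of the cell,
and `K S` the double of the maximum on the disc with the `25`-fold radius. There are at most `log K / log 2 + 1` zeros in the relevant disc; one splits them off and applies Harnack's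
inequality to the rest. So the mean over the cell of `exp (1/2 (log S - log |ζ|)^(1/2))` on a shifted line is at most `O(K²)` (the mean of the
geometric mean of the inverse distances to the power `1/2`). Since `S^(2k) ≤ (2 K^(-1) (maximum on the larger disc))^(2k)`, the sum over all cells
is bounded by the sum of the `2k`-th powers of the maxima on the larger discs, i.e. by the moment.
-/

set_option autoImplicit false

namespace Pool.Agent.Results.MP_56b8f5_nt.OscillationOfTheLogarithm

open MeasureTheory Filter Topology

/-- the point `1/2 + iy` -/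
noncomputable def point (y : ℝ) : ℂ := ((1 / 2 : ℝ) : ℂ) + y * Complex.I

/-- the Gaussian weight of the window of width `U` at the height `T` -/
noncomputable def weight (T U y : ℝ) : ℝ := Real.exp (-((y - T) / U) ^ 2)

/-- the moment `∫ |ζ(1/2 + iy)|^(2k) exp (-((y - T) / U)^2) dy` -/
noncomputable def moment (k : ℕ) (T U : ℝ) : ℝ := ∫ y : ℝ, ‖riemannZeta (point y)‖ ^ (2 * k) * weight T U y

/-- `log |ζ(1/2 + iy + z / log T)|` -/
noncomputable def logZeta (T : ℝ) (z : ℂ) (y : ℝ) : ℝ := Real.log ‖riemannZeta (point y + z / Real.log T)‖

/-- the `2k`-th power of `|ζ|` at the point with the shift `z₀`, times the stretched exponential of the increment of `log |ζ|` between the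
shifts `z₁` and `z₂`, times the weight -/
noncomputable def increment (k : ℕ) (z₀ z₁ z₂ : ℂ) (T U y : ℝ) : ℝ :=
  ‖riemannZeta (point y + z₀ / Real.log T)‖ ^ (2 * k) *
    Real.exp (Real.sqrt |logZeta T z₁ y - logZeta T z₂ y| / 2) * weight T U y

/-- Let `k ≥ 1` be an integer and `A ≥ 0`. There are `C` and `T₀` such that for all `T ≥ T₀`, `1 ≤ U ≤ T / log T` and all complex `z₀, z₁, z₂` with
`|z_i| ≤ A` the function `increment k z₀ z₁ z₂ T U` is integrable and its integral is at most `C moment k T U`. -/
theorem result (k : ℕ) (hk : 1 ≤ k) (A : ℝ) (hA : 0 ≤ A) :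
    ∃ C T₀ : ℝ, ∀ T : ℝ, T₀ ≤ T → ∀ U : ℝ, 1 ≤ U → U ≤ T / Real.log T →
      ∀ z₀ z₁ z₂ : ℂ, ‖z₀‖ ≤ A → ‖z₁‖ ≤ A → ‖z₂‖ ≤ A →
        Integrable (increment k z₀ z₁ z₂ T U) ∧
        ∫ y : ℝ, increment k z₀ z₁ z₂ T U y ≤ C * moment k T U := by
  obtain ⟨C, -, h1⟩ := U345Z.osc_upper k hk hA
  obtain ⟨T1, hT1⟩ := eventually_atTop.mp h1
  refine ⟨C, max 3 T1, fun T hT U hU1 hU2 z₀ z₁ z₂ h0 h1 h2 => ?_⟩
  exact hT1 T (le_of_max_le_right hT) U ⟨le_of_max_le_left hT, hU1, hU2⟩ z₀ z₁ z₂ h0 h1 h2

end Pool.Agent.Results.MP_56b8f5_nt.OscillationOfTheLogarithm
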