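import Pool.Agent.U52.RH.WalkHeights
import Pool.Agent.U52.RH.ExpLaw

set_option autoImplicit false

/-!
# MP_56b8f5_nt: the eighth (and every even) moment of zeta on the points of a random walk

Let `S_n = X_0 + ... + X_(n-1)` be a random walk whose independent identically distributed steps have a positive mean and
satisfy Cramer's condition, for instance a Poisson process on the half-line. Almost surely, for every window of `J ≥ T^κ`
consecutive points `S_u, ..., S_(u+J-1)` in `[T, 2T]`, `T ≥ T₀`, the points behave like the full interval `[T, 2T]`: the mean of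
the local `2k`-th moments of zeta at the scale `1 / log T` is at least `c (log T)^(k^2)` (`k = 4`: the eighth moment,
`c (log T)^16`), and the smoothed shifted `2k`-th moment has the limit predicted by the moment conjecture, with the arithmetic
factor `a_k`.

The proof: with `φ` the characteristic function of the steps, `(1 - φ(λ)) ∑ exp (i λ S_n)` over a window is up to two bounded
terms a martingale, and its tails are bounded by exponential moments, simultaneously for all windows and all frequencies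
`λ = log (m / n)`, `m n ≤ T^(2θ)`, `2 θ < κ`.
-/

namespace Pool.Agent.Results.MP_56b8f5_nt.RandomWalkHeights

open Complex MeasureTheory Filter Topology Set ProbabilityTheory
open scoped ContDiff ENNReal
open Pool.Agent.R461.HM

noncomputable section

/-- the weighted mean of `|ζ(1/2 + i(t + v))|^(2k)` over `v` at the scale `1 / log T` -/
def localMoment (k N : ℕ) (T t : ℝ) : ℝ≥0∞ :=
  ∫⁻ v : ℝ, ENNReal.ofReal (‖riemannZeta (1 / 2 + I * (t + v))‖ ^ (2 * k) * (Real.log T / (1 + Real.log T * |v|) ^ N))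

/-- `(log T)^(-k^2)` times the mean of `ζ(1/2 + iα/log T + it)^k ζ(1/2 + iα/log T - it)^k` over `t = t_j`, `j < J` -/
def shiftedMean (k : ℕ) (α T : ℝ) (J : ℕ) (t : ℕ → ℝ) : ℂ :=
  ((Real.log T : ℂ) ^ (k ^ 2))⁻¹ * ((J : ℂ)⁻¹ * ∑ j ∈ Finset.range J,
    riemannZeta (1 / 2 + I * α / Real.log T + I * t j) ^ k * riemannZeta (1 / 2 + I * α / Real.log T - I * t j) ^ k)

/-- `φ(α) = ∫ ψ(ξ) e^{iξα} dξ` -/
def phi (ψ : ℝ → ℂ) (α : ℝ) : ℂ := ∫ ξ : ℝ, ψ ξ * exp (I * ξ * α)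

/-- the arithmetic factor `a_k` -/
def arith (k : ℕ) : ℝ :=
  ∏' p : Nat.Primes, ((1 - 1 / (p : ℝ)) ^ (k ^ 2) * ∑' m : ℕ, ((m + k - 1).choose m : ℝ) ^ 2 * (1 / (p : ℝ)) ^ m)

/-- the law of the steps: integrable with positive mean, and Cramer's condition: `|1 - φ(v)| ≥ c min (1, |v|)` for the
characteristic function `φ` -/
def StepLaw (μ : Measure ℝ) : Prop :=
  IsProbabilityMeasure μ ∧ Integrable (fun x : ℝ => x) μ ∧ 0 < ∫ x, x ∂μ ∧
    ∃ c : ℝ, 0 < c ∧ ∀ v : ℝ, c * min 1 |v| ≤ ‖1 - ∫ x : ℝ, exp (I * (v * x)) ∂μ‖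

/-- the steps `X_0, X_1, ...` are independent with the same law, as in `StepLaw` -/
structure Steps {Ω : Type} [MeasurableSpace Ω] (P : Measure Ω) (X : ℕ → Ω → ℝ) : Prop where
  meas : ∀ j, Measurable (X j)
  indep : iIndepFun X P
  law : ∃ μ : Measure ℝ, (∀ j, P.map (X j) = μ) ∧ StepLaw μ

/-- the random walk `S_n = X_0 + ... + X_(n-1)` -/
def walk {Ω : Type} (X : ℕ → Ω → ℝ) (w : Ω) (n : ℕ) : ℝ := ∑ i ∈ Finset.range n, X i w

/-- the window `S_u, ..., S_(u+J-1)` is in `[T, 2T]` and has at least `T^κ` points -/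
def Window {Ω : Type} (X : ℕ → Ω → ℝ) (w : Ω) (κ T : ℝ) (u J : ℕ) : Prop :=
  T ^ κ ≤ J ∧ ∀ j < J, walk X w (u + j) ∈ Icc T (2 * T)

/-- the windows have small character sums -/
lemma heights {Ω : Type} [MeasurableSpace Ω] {P : Measure Ω} [IsProbabilityMeasure P] {X : ℕ → Ω → ℝ} {κ θ θ₂ : ℝ}
    (h : Steps P X) (hκ : 0 < κ) (hθ : 0 ≤ θ) (h2 : 0 ≤ θ₂) (h2κ : 2 * θ₂ < κ) :
    ∀ᵐ w ∂P, ∃ T₀ : ℝ, Real.exp 1 ≤ T₀ ∧ ∀ T : ℝ, T₀ ≤ T → ∀ u J : ℕ, Window X w κ T u J →
      Heights T (T ^ (2 * θ)) (T ^ (-θ₂)) (unif J (fun j => walk X w (u + j))) := by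
  obtain ⟨μ, hlaw, hμ, hint, hpos, c, hc, hcf⟩ := h.law
  filter_upwards [U52.RH.ae_heightsW h.meas h.indep hlaw hint hpos hc hcf hκ hθ h2 h2κ] with w ⟨T₀, hT₀, hw⟩
  exact ⟨T₀, hT₀, fun T hT u J hW => hw T hT u J hW.1 hW.2⟩

/-- Let `κ > 0`. (1) For all `k ≥ 1` (`k = 4` is the eighth moment) and `N` there is `c > 0` such that for every random walk
`S_n` with steps as in `Steps`, almost surely there is `T₀` with: for all real `T ≥ T₀` and all windows of at least `T^κ`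
consecutive points of the walk in `[T, 2T]`, the mean of the local `2k`-th moments at these points is at least
`c (log T)^(k^2)`. (2) Almost surely: for all `k ≥ 1` and all smooth `ψ` with compact support vanishing above `2θ`, `2θ < κ`,
the integral over `α` of `φ(α)` times the shifted mean tends to `2π a_k ∫_0^∞ u^(k²-1)/(k²-1)! ψ(2u) du` as `T → ∞`, uniformly
over the windows. (3) If `κ < 1`, then almost surely there are windows for all large `T`. (4) The exponential laws satisfy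
`StepLaw`, so Poisson processes are covered. -/
theorem result (κ : ℝ) (hκ : 0 < κ) :
    (∀ k N : ℕ, 1 ≤ k → ∃ c : ℝ, 0 < c ∧
      ∀ (Ω : Type) [MeasurableSpace Ω] (P : Measure Ω) [IsProbabilityMeasure P] (X : ℕ → Ω → ℝ), Steps P X →
        ∀ᵐ w ∂P, ∃ T₀ : ℝ, ∀ T : ℝ, T₀ ≤ T → ∀ u J : ℕ, Window X w κ T u J →
          ENNReal.ofReal (c * Real.log T ^ (k ^ 2)) ≤
            (J : ℝ≥0∞)⁻¹ * ∑ j ∈ Finset.range J, localMoment k N T (walk X w (u + j))) ∧
    (∀ (Ω : Type) [MeasurableSpace Ω] (P : Measure Ω) [IsProbabilityMeasure P] (X : ℕ → Ω → ℝ), Steps P X →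
      ∀ᵐ w ∂P, ∀ k : ℕ, 1 ≤ k → ∀ ψ : ℝ → ℂ, ContDiff ℝ ∞ ψ → HasCompactSupport ψ →
        (∃ θ : ℝ, 2 * θ < κ ∧ ∀ ξ : ℝ, 2 * θ < ξ → ψ ξ = 0) → ∀ ε : ℝ, 0 < ε →
        ∃ T₀ : ℝ, ∀ T : ℝ, T₀ ≤ T → ∀ u J : ℕ, Window X w κ T u J →
          Integrable (fun α : ℝ => phi ψ α * shiftedMean k α T J (fun j => walk X w (u + j))) ∧
          ‖(∫ α : ℝ, phi ψ α * shiftedMean k α T J (fun j => walk X w (u + j))) - 2 * Real.pi * arith k *
            ∫ u in Ioi (0:ℝ), (u : ℂ) ^ (k ^ 2 - 1) / (k ^ 2 - 1).factorial * ψ (2 * u)‖ ≤ ε) ∧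
    (κ < 1 → ∀ (Ω : Type) [MeasurableSpace Ω] (P : Measure Ω) [IsProbabilityMeasure P] (X : ℕ → Ω → ℝ), Steps P X →
      ∀ᵐ w ∂P, ∃ T₀ : ℝ, ∀ T : ℝ, T₀ ≤ T → ∃ u J : ℕ, Window X w κ T u J) ∧
    (∀ r : ℝ, 0 < r → StepLaw (expMeasure r)) := by
  set m : ℝ := κ / 2 with hm
  have hm0 : 0 < m := by linarith
  refine ⟨fun k N hk => ?_, fun Ω _ P _ X hX => ?_, fun hκ1 Ω _ P _ X hX => ?_, fun r hr => ?_⟩
  · obtain ⟨c, T₀, hc, hT₀, hmain⟩ := lower' hk N (θ := m / 4) (θ' := m / 2) (by linarith) (by linarith)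
    refine ⟨c, hc, fun Ω _ P _ X hX => ?_⟩
    filter_upwards [heights hX hκ (θ := m / 4) (θ₂ := m / 2) (by linarith) (by linarith) (by linarith)]
      with w ⟨T₁, hT₁, hH1⟩
    refine ⟨max T₀ T₁, fun T hT u J hJ => ?_⟩
    have hTa := (le_max_left _ _).trans hT
    have hTb := (le_max_right _ _).trans hT
    have hTe := hT₁.trans hTb
    have hT0 : 0 < T := (Real.exp_pos 1).trans_le hTe
    have hL : 1 ≤ Real.log T := by rwa [Real.le_log_iff_exp_le hT0]
    have h3 := hmain T hTa _ (hH1 T hTb u J hJ)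
    rw [lintegral_unif k N (by linarith)] at h3
    exact h3
  · have hr0 : ∀ r : ℕ, 0 ≤ m * (1 - 1 / ((r : ℝ) + 1)) := by
      intro r
      have : 1 / ((r : ℝ) + 1) ≤ 1 := by
        rw [div_le_one (by positivity)]
        have : (0:ℝ) ≤ r := by positivity
        linarith
      have : 0 ≤ 1 - 1 / ((r : ℝ) + 1) := by linarith
      positivity
    have hrm : ∀ r : ℕ, m * (1 - 1 / ((r : ℝ) + 1)) < m := by
      intro r
      have : 0 < 1 / ((r : ℝ) + 1) := by positivity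
      nlinarith
    have hrr : ∀ r : ℕ, m * (1 - 1 / ((r : ℝ) + 1)) < m * (1 - 1 / (((r + 1 : ℕ) : ℝ) + 1)) := by
      intro r
      have h1 : 1 / (((r + 1 : ℕ) : ℝ) + 1) < 1 / ((r : ℝ) + 1) := by
        refine one_div_lt_one_div_of_lt (by positivity) ?_
        push_cast
        linarith
      nlinarith
    have hall : ∀ᵐ w ∂P, ∀ r : ℕ, ∃ T₀ : ℝ, Real.exp 1 ≤ T₀ ∧ ∀ T : ℝ, T₀ ≤ T → ∀ u J : ℕ, Window X w κ T u J →
        Heights T (T ^ (2 * (m * (1 - 1 / ((r : ℝ) + 1))))) (T ^ (-(m * (1 - 1 / (((r + 1 : ℕ) : ℝ) + 1)))))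
          (unif J (fun j => walk X w (u + j))) := by
      rw [ae_all_iff]
      intro r
      have h1 := hrm (r + 1)
      exact heights hX hκ (hr0 r) (hr0 (r + 1)) (by linarith)
    filter_upwards [hall] with w hH k hk ψ hψ hc ⟨θ, hθκ, hz⟩ ε hε
    have hθm : θ < m := by linarith
    obtain ⟨r, hr⟩ : ∃ r : ℕ, θ ≤ m * (1 - 1 / ((r : ℝ) + 1)) := by
      obtain ⟨r, hr⟩ := exists_nat_one_div_lt (show 0 < (m - θ) / m by
        have : 0 < m - θ := by linarith
        positivity)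
      refine ⟨r, ?_⟩
      rw [lt_div_iff₀ hm0] at hr
      nlinarith
    obtain ⟨T₁, hT₁, hH1⟩ := hH r
    obtain ⟨T₀, hT₀, hlim⟩ := limit_form (hr0 r) (hrr r) hψ hc (fun ξ hξ => hz ξ (by linarith)) hk ε hε
    refine ⟨max T₀ T₁, fun T hT u J hJ => ?_⟩
    have hTa := (le_max_left _ _).trans hT
    have hTb := (le_max_right _ _).trans hT
    obtain ⟨g1, g2⟩ := hlim T hTa _ (hH1 T hTb u J hJ)
    have e1 : (fun α : ℝ => W182.KO.P ψ (α * I) * Qn k (unif J (fun j => walk X w (u + j))) α T) =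
        fun α : ℝ => phi ψ α * shiftedMean k α T J (fun j => walk X w (u + j)) := by
      funext α
      congr 1
      · unfold W182.KO.P phi
        congr 1; funext ξ
        congr 2
        ring
      · unfold Qn shiftedMean
        rw [integral_unif]
    rw [e1] at g1 g2
    exact ⟨g1, g2⟩
  · obtain ⟨μ, hlaw, hμ, hint, hpos, -⟩ := hX.law
    filter_upwards [U52.RH.ae_windows hX.meas hX.indep hlaw hint hpos] with w ⟨T₀, hT₀⟩
    have t1 : Tendsto (fun T : ℝ => T ^ (1 - κ)) atTop atTop := tendsto_rpow_atTop (by linarith)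
    obtain ⟨T₁, hT₁⟩ := eventually_atTop.mp ((t1.eventually_ge_atTop (2 * ∫ x, x ∂μ)).and (eventually_gt_atTop 0))
    refine ⟨max T₀ T₁, fun T hT => ?_⟩
    obtain ⟨u, J, h1, h2⟩ := hT₀ T ((le_max_left _ _).trans hT)
    obtain ⟨h3, h4⟩ := hT₁ T ((le_max_right _ _).trans hT)
    refine ⟨u, J, le_trans ?_ h1, h2⟩
    rw [le_div_iff₀ (by positivity)]
    calc T ^ κ * (2 * ∫ x, x ∂μ) ≤ T ^ κ * T ^ (1 - κ) := mul_le_mul_of_nonneg_left h3 (by positivity)
      _ = T := by rw [← Real.rpow_add h4]; norm_num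
  · refine ⟨isProbabilityMeasure_expMeasure hr, U52.RH.exp_integrable hr, ?_, 1 / (1 + r), by positivity,
      U52.RH.exp_cramer hr⟩
    rw [U52.RH.exp_mean hr]
    positivity

end

end Pool.Agent.Results.MP_56b8f5_nt.RandomWalkHeights
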