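import Pool.Agent.U899.TM.OLF
import Pool.Agent.N748.OL.Main

set_option autoImplicit false

/-!
# The values of zeta on the critical line and the small primes in the moment measures of all orders `2k ≥ 2`

Let `0 < d = d(T) ≤ (log T)^(-c)` with `d log T / log²(1/d) → ∞` and `log(2 + d log T) = o((log log T)^(1/2))`,
for instance `d = (log log T)³ / log T`. Let `k ≥ 1` (`k = 4` for the eighth moment) and `V > k` be real. On the
heights `t ∈ [0, T]` with `|ζ(1/2 + d + it)| ≤ (2d)^(-V)` we consider the moment measure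
`|ζ(1/2 + d + it)|^(2k) dt`; its total mass is asymptotic to `a(k) (2d)^(-k²) T`.

We prove that in this measure the size of zeta ON the critical line, `log |ζ(1/2 + it)|`, normal with mean
`k log log T` and variance `(1/2) log log T`, and the phases of the small primes, the numbers `p^(-it)` for `p` in a
finite set `P`, are asymptotically independent, and that the latter are asymptotically independent of each other with
densities proportional to `|1 - e(y) p^(-1/2)|^(-2k)`, the local factors of `a(k)`. So the arithmetic factor is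
built up, prime by prime, at the heights at which zeta on the line has the typical size `(log T)^k`, and the law
of the small primes is the same for all such sizes `(log T)^k exp(x √((1/2) log log T))`.
-/

namespace Pool.Agent.Results.MP_56b8f5_nt.SmallPrimesAndTheLine

open MeasureTheory Filter Topology

/-- The arithmetic factor `a(k)`; `k(k+1)⋯(k+m-1)/m!` is `Γ(k+m)/(Γ(k) m!)`. -/
noncomputable def a (k : ℝ) : ℝ := ∏' p : Nat.Primes, ((1 - 1 / (p : ℝ)) ^ (k ^ 2) *
  ∑' m : ℕ, (∏ i ∈ Finset.range m, (k + i) / ((i : ℝ) + 1)) ^ 2 * (1 / (p : ℝ)) ^ m)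

/-- The phases `-t log p / 2π` modulo one of the numbers `p^(-it)`, `p ∈ P`. -/
noncomputable def phases (P : Finset ℕ) (t : ℝ) : P → UnitAddCircle :=
  fun p => ((-(t * Real.log (p : ℕ) / (2 * Real.pi)) : ℝ) : UnitAddCircle)

/-- `|1 - e(y) p^(-1/2)|^(-2k)`, with `e(y) = exp(2πiy)`. -/
noncomputable def weight (k : ℝ) (p : ℕ) (y : UnitAddCircle) : ℝ :=
  ‖1 - (fourier 1 y : ℂ) * (((p : ℝ) ^ (-(1 / 2 : ℝ)) : ℝ) : ℂ)‖ ^ (-(2 * k))

/-- `E_k[F]`: the mean value of `F` for independent phases whose densities are proportional to the weights. -/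
noncomputable def tiltedMean (k : ℝ) (P : Finset ℕ) (F : (P → UnitAddCircle) → ℝ) : ℝ :=
  (∫ x, F x * ∏ p : P, weight k p (x p) ∂(Measure.pi fun _ : P => AddCircle.haarAddCircle (T := (1 : ℝ)))) /
    ∏ p : P, ∫ y, weight k p y ∂(AddCircle.haarAddCircle (T := (1 : ℝ)))

/-- the modulus of zeta on the critical line at height `t` -/
noncomputable def z0 (t : ℝ) : ℝ := ‖riemannZeta (1 / 2 + t * Complex.I)‖

/-- the modulus of zeta at distance `d` from the critical line and height `t` -/
noncomputable def z (d t : ℝ) : ℝ := ‖riemannZeta (1 / 2 + d + t * Complex.I)‖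

/-- the heights `0 ≤ t ≤ T` with `|ζ(1/2 + d + it)| ≤ (2d)^(-V)` -/
def G (V d T : ℝ) : Set ℝ := {t : ℝ | t ∈ Set.Icc 0 T ∧ z d t ≤ (2 * d) ^ (-V)}

/-- The size `(log T)^k exp(x √((1/2) log log T))` on the critical line, its logarithm. -/
noncomputable def level (k x T : ℝ) : ℝ := k * Real.log (Real.log T) + x * Real.sqrt (Real.log (Real.log T) / 2)

/-- The moment of order `2k` with the weight `F(phases)` over the heights in `G V d T` which lie in `S`. -/
noncomputable def moment (k V : ℝ) (P : Finset ℕ) (F : (P → UnitAddCircle) → ℝ) (d T : ℝ) (S : Set ℝ) : ℝ :=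
  (1 / T) * ∫ t in {t : ℝ | t ∈ G V d T ∧ t ∈ S}, F (phases P t) * z d t ^ (2 * k)

/-- The normal distribution function. -/
noncomputable def Phi (x : ℝ) : ℝ := (ProbabilityTheory.gaussianReal 0 1 (Set.Iic x)).toReal

lemma adm {c : ℝ} {d : ℝ → ℝ} (hc : 0 < c) (hd0 : ∀ᶠ T : ℝ in atTop, 0 < d T)
    (hdc : ∀ᶠ T : ℝ in atTop, d T ≤ Real.log T ^ (-c))
    (hdL : Tendsto (fun T : ℝ => d T * Real.log T / Real.log (1 / d T) ^ 2) atTop atTop) :
    Pool.Agent.N748.MO.Adc c d := by
  refine ⟨⟨hd0, ?_, hdL⟩, hc, hdc⟩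
  have h1 : Tendsto (fun T : ℝ => Real.log T ^ (-c)) atTop (𝓝 0) :=
    (tendsto_rpow_neg_atTop hc).comp Real.tendsto_log_atTop
  exact squeeze_zero' (hd0.mono fun T h => h.le) hdc h1

lemma tm_eq (V : ℝ) {P : Finset ℕ} (hP : ∀ p ∈ P, p.Prime) (F : (P → UnitAddCircle) → ℝ) :
    Pool.Agent.U899.TM.tm V P F = tiltedMean V P F := by
  have hw : ∀ (p : P) (y : UnitAddCircle), Real.exp (Pool.Agent.N748.GC.lw V p y) = weight V p y := by
    intro p y
    unfold Pool.Agent.N748.GC.lw weight
    rw [Real.rpow_def_of_pos (Pool.Agent.N748.GC.RZ.norm_pos' (hP p p.2) y)]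
    congr 1
    ring
  have hM : ∀ x : P → UnitAddCircle, Pool.Agent.N748.GC.M0 V P x =
      (∏ p : P, weight V p (x p)) / ∏ p : P, ∫ y, weight V p y ∂(AddCircle.haarAddCircle (T := (1 : ℝ))) := by
    intro x
    unfold Pool.Agent.N748.GC.M0 Pool.Agent.N748.GC.E0
    rw [Real.exp_sum]
    simp only [hw]
  unfold Pool.Agent.U899.TM.tm tiltedMean
  rw [← integral_div]
  refine integral_congr_ae (ae_of_all _ fun x => ?_)
  simp only [hM]
  ring

theorem result (c : ℝ) (hc : 0 < c) (d : ℝ → ℝ) (hd0 : ∀ᶠ T : ℝ in atTop, 0 < d T)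
    (hdc : ∀ᶠ T : ℝ in atTop, d T ≤ Real.log T ^ (-c))
    (hdL : Tendsto (fun T : ℝ => d T * Real.log T / Real.log (1 / d T) ^ 2) atTop atTop)
    (hl : Tendsto (fun T : ℝ => Real.log (2 + d T * Real.log T) / Real.sqrt (Real.log (Real.log T))) atTop (𝓝 0))
    (k V : ℝ) (hk : 1 ≤ k) (hV : k < V) (P : Finset ℕ) (hP : ∀ p ∈ P, p.Prime)
    (F : (P → UnitAddCircle) → ℝ) (hF : Continuous F) :
    0 < a k ∧
    -- the whole moment measure
    Tendsto (fun T : ℝ => (2 * d T) ^ (k ^ 2) * moment k V P F (d T) T Set.univ) atTop (𝓝 (a k * tiltedMean k P F)) ∧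
    -- the joint law of the size on the line and the phases
    (∀ x : ℝ, Tendsto (fun T : ℝ => (2 * d T) ^ (k ^ 2) *
      moment k V P F (d T) T {t | Real.log (z0 t) ≤ level k x T}) atTop (𝓝 (a k * tiltedMean k P F * Phi x))) ∧
    -- the law of the phases, given the size on the line
    ∀ x y : ℝ, x < y → Tendsto (fun T : ℝ =>
      moment k V P F (d T) T {t | level k x T < Real.log (z0 t) ∧ Real.log (z0 t) ≤ level k y T} /
      moment k V P (fun _ => 1) (d T) T {t | level k x T < Real.log (z0 t) ∧ Real.log (z0 t) ≤ level k y T}) atTop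
        (𝓝 (tiltedMean k P F)) := by
  have hA := adm hc hd0 hdc hdL
  have hcp := Pool.Agent.N748.OL.cprF
  have hk0 : 0 < k := by linarith
  refine ⟨(Pool.Agent.N748.MG.aC_akR k).1, ?_, fun x => ?_, fun x y hxy => ?_⟩
  · have key := Pool.Agent.U899.TM.superF hP hF hA.toAd hk0 hV
    rw [tm_eq k hP F] at key
    refine key.congr fun T => ?_
    unfold moment
    have e : {t : ℝ | t ∈ G V (d T) T ∧ t ∈ Set.univ} =
        {t : ℝ | t ∈ Set.Icc 0 T ∧ Pool.Agent.N748.MG.mz (d T) t ≤ (2 * d T) ^ (-V)} := by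
      ext t
      exact ⟨fun h => h.1, fun h => ⟨h, Set.mem_univ _⟩⟩
    rw [e]
    rfl
  · have key := Pool.Agent.U899.TM.OLF.main hcp hP hF hA hk hV hl x
    rw [tm_eq k hP F] at key
    exact key
  · have k1 := Pool.Agent.U899.TM.OLF.between hcp hP hF hA hk hV hl hxy
    have k2 := Pool.Agent.U899.TM.OLF.between hcp hP (F := fun _ => 1) continuous_const hA hk hV hl hxy
    rw [tm_eq k hP F] at k1
    rw [Pool.Agent.U899.TM.tm_one k hP, mul_one] at k2
    have hne : Pool.Agent.N748.MG.akR k * (Pool.Agent.N748.MG.Phi y - Pool.Agent.N748.MG.Phi x) ≠ 0 :=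
      (mul_pos (Pool.Agent.N748.MG.aC_akR k).1 (Pool.Agent.U899.TM.OLF.Phi_lt hxy)).ne'
    have hc' : ∀ᶠ T in atTop, (2 * d T) ^ (k ^ 2) ≠ 0 := by
      filter_upwards [hd0] with T hT
      exact (Real.rpow_pos_of_pos (by linarith) _).ne'
    have key := Pool.Agent.U899.TM.quotF (d := d) hne hc' k1 k2
    refine key.congr' ?_
    filter_upwards [eventually_gt_atTop 0] with T hT
    unfold moment
    rw [mul_div_mul_left _ _ (one_div_pos.2 hT).ne']
    rfl

end Pool.Agent.Results.MP_56b8f5_nt.SmallPrimesAndTheLine
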