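import Pool.Agent.U899.UM.Near

set_option autoImplicit false

/-!
# Universality inside the moment measures near the critical line

Let `d = d(T) → 0` with `d log T / log²(1/d) → ∞` and let `k > 0` be real (`k = 4` for the eighth moment). The
`2k`-th moment of `ζ(1/2 + d + it)` over `0 ≤ t ≤ T` lives on the heights with
`|ζ(1/2 + d + it)| = (2d)^(-k) exp(x √((1/2) log(1/2d)))`, `x` bounded, which form a set of density
`(2d)^(k² + o(1)) → 0`. We prove that universality holds inside these sparse sets, with a positive proportion of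
the moment: for every admissible pair `(K, f)` in the strip and every `ε > 0` the heights at which
`sup_K |ζ(· + it) - f| < ε` carry a positive proportion of the moment over each window `x < y` of sizes, and of the
moment over all `t` with `|ζ(1/2 + d + it)| ≤ (2d)^(-V)`, `V > k`. The same holds for the negative moments,
`k < 0`, over the heights with `|ζ(1/2 + d + it)| ≥ (2d)^(-V)`, `V < k`.
-/

namespace Pool.Agent.Results.MP_56b8f5_nt.UniversalityNearTheLine

open Complex Filter MeasureTheory Topology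

/-- `(K, f)` is admissible: `K` is a compact subset of the strip `1/2 < Re z < 1` with connected complement, `f` is
continuous on `K` and holomorphic without zeros in the interior of `K` (zeros on the boundary are allowed). -/
structure Admissible (K : Set ℂ) (f : ℂ → ℂ) : Prop where
  compact : IsCompact K
  strip : ∀ z ∈ K, 1 / 2 < z.re ∧ z.re < 1
  compl_connected : IsConnected Kᶜ
  cont : ContinuousOn f K
  hol : DifferentiableOn ℂ f (interior K)
  nonzero : ∀ z ∈ interior K, f z ≠ 0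

/-- `S ε K f`: the real `t` with `sup_{z ∈ K} |ζ(z + it) - f(z)| < ε`. -/
def S (ε : ℝ) (K : Set ℂ) (f : ℂ → ℂ) : Set ℝ :=
  {t : ℝ | ∃ δ < ε, ∀ z ∈ K, ‖riemannZeta (z + t * I) - f z‖ ≤ δ}

/-- the modulus of zeta at distance `d` from the critical line and height `t` -/
noncomputable def z (d t : ℝ) : ℝ := ‖riemannZeta (1 / 2 + d + t * I)‖

/-- The size `(2d)^(-k) exp(x √((1/2) log(1/2d)))`. -/
noncomputable def size (k x d : ℝ) : ℝ := (2 * d) ^ (-k) * Real.exp (x * Real.sqrt (Real.log (1 / (2 * d)) / 2))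

/-- The proportion of the moment of order `2k` over the heights `t ∈ E` which is carried by `t ∈ A`. -/
noncomputable def proportion (k d : ℝ) (E A : Set ℝ) : ℝ :=
  (∫ t in {t : ℝ | t ∈ E ∧ t ∈ A}, z d t ^ (2 * k)) / ∫ t in E, z d t ^ (2 * k)

theorem result (d : ℝ → ℝ) (hd0 : ∀ᶠ T : ℝ in atTop, 0 < d T) (hdt : Tendsto d atTop (𝓝 0))
    (hdL : Tendsto (fun T : ℝ => d T * Real.log T / Real.log (1 / d T) ^ 2) atTop atTop)
    (K : Set ℂ) (f : ℂ → ℂ) (h : Admissible K f) (ε : ℝ) (hε : 0 < ε) (k : ℝ) :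
    (0 < k →
      -- each window of typical sizes
      (∀ x y : ℝ, x < y → ∃ c : ℝ, 0 < c ∧ ∀ᶠ T : ℝ in atTop, c ≤ proportion k (d T)
        {t : ℝ | t ∈ Set.Icc 0 T ∧ size k x (d T) < z (d T) t ∧ z (d T) t ≤ size k y (d T)} (S ε K f)) ∧
      -- the truncated moment
      ∀ V : ℝ, k < V → ∃ c : ℝ, 0 < c ∧ ∀ᶠ T : ℝ in atTop, c ≤ proportion k (d T)
        {t : ℝ | t ∈ Set.Icc 0 T ∧ z (d T) t ≤ (2 * d T) ^ (-V)} (S ε K f)) ∧
    -- negative orders
    (k < 0 → ∀ V : ℝ, V < k → ∃ c : ℝ, 0 < c ∧ ∀ᶠ T : ℝ in atTop, c ≤ proportion k (d T)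
        {t : ℝ | t ∈ Set.Icc 0 T ∧ (2 * d T) ^ (-V) ≤ z (d T) t} (S ε K f)) := by
  have hd : Pool.Agent.N748.MG.Ad d := ⟨hd0, hdt, hdL⟩
  have hS : ∀ z ∈ K, z ∈ {z : ℂ | 1 / 2 < z.re ∧ z.re < 1} := h.strip
  have ha := (Pool.Agent.N748.MG.aC_akR k).1
  refine ⟨fun hk => ⟨fun x y hxy => ?_, fun V hV => ?_⟩, fun hk V hV => ?_⟩
  · exact Pool.Agent.U899.UM.prop_gen hd (mul_pos ha (Pool.Agent.U899.TM.OLF.Phi_lt hxy))
      (Pool.Agent.U899.UM.lawWindow hd hk hxy) h.compact hS h.compl_connected h.cont h.hol h.nonzero hε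
  · exact Pool.Agent.U899.UM.prop_gen hd ha
      (Pool.Agent.U899.UM.lawSuper hd hk hV) h.compact hS h.compl_connected h.cont h.hol h.nonzero hε
  · exact Pool.Agent.U899.UM.prop_gen hd ha
      (Pool.Agent.U899.UM.lawNeg hd hk hV) h.compact hS h.compl_connected h.cont h.hol h.nonzero hε

end Pool.Agent.Results.MP_56b8f5_nt.UniversalityNearTheLine
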